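import Pool.Agent.Helper453.SR.Final

set_option autoImplicit false
open CategoryTheory MonoidalCategory

namespace Pool.Agent.Results.MP_3a9bc7_al.NilpotentLengthFive

/-- Every finite soluble simply reducible group `G` has a chain of normal subgroups
`1 = N 0 ≤ N 1 ≤ N 2 ≤ N 3 ≤ N 4 ≤ N 5 = G` with all quotients `N (i+1) / N i` nilpotent,
that is, `h(G) ≤ 5`. Simple reducibility is spelled out: every element is conjugate to its
inverse, and every irreducible complex representation `U` occurs in the tensor product of two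
irreducible complex representations `V`, `W` with multiplicity `dim Hom(U, V ⊗ W) ≤ 1`. -/
theorem result :
    ∀ (G : Type) [Group G] [Fintype G], Group.IsSolvable G →
      (∀ g : G, IsConj g g⁻¹) →
      (∀ U V W : FDRep ℂ G, CategoryTheory.Simple U → CategoryTheory.Simple V →
        CategoryTheory.Simple W → Module.finrank ℂ (U ⟶ V ⊗ W) ≤ 1) →
      ∃ (N : Fin 6 → Subgroup G) (_ : ∀ i, (N i).Normal), N 0 = ⊥ ∧ N 5 = ⊤ ∧
        ∀ i : Fin 5, N i.castSucc ≤ N i.succ ∧
          Group.IsNilpotent (↥(N i.succ) ⧸ (N i.castSucc).subgroupOf (N i.succ)) :=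
  Pool.Agent.Helper453.SR.NFinal.Final

end Pool.Agent.Results.MP_3a9bc7_al.NilpotentLengthFive
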